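import Pool.Agent.PFo.Forest

/-!
Infinite chains.
-/

namespace Pool.Agent.PFo

open Finset Filter

/-- An infinite chain which stays in `G`, from any element of `G`. -/
theorem chain {c η : ℝ} (hc : 0 < c) (hη : 0 < η) (G : Set ℕ)
    (hG : ∀ p ∈ G, p.Prime ∧ ∀ K : ℝ, (p : ℝ) ^ (1 - η) ≤ K → K < 2 * ((p : ℝ) + 1) →
      c * K / Real.log p ≤
        ({k : ℕ | 1 ≤ k ∧ (k : ℝ) ≤ K ∧ ¬ p ∣ k ∧ 2 * k * p + 1 ∈ G}.ncard : ℝ))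
    (p : ℕ) (hp : p ∈ G) : ∃ u : ℕ → ℕ, u 0 = p ∧ ∀ i, u i ∈ G ∧
      ∃ k : ℕ, 1 ≤ k ∧ (k : ℝ) ≤ (u i : ℝ) ^ (1 - η) ∧ ¬ u i ∣ k ∧ u (i + 1) = 2 * k * u i + 1 := by
  have hstep : ∀ q : G, ∃ r : G, ∃ k : ℕ, 1 ≤ k ∧ (k : ℝ) ≤ ((q : ℕ) : ℝ) ^ (1 - η) ∧
      ¬ (q : ℕ) ∣ k ∧ (r : ℕ) = 2 * k * q + 1 := by
    rintro ⟨q, hq⟩
    obtain ⟨hqp, hqK⟩ := hG q hq
    have hq1 : (1 : ℝ) < q := by exact_mod_cast hqp.one_lt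
    have hq0 : (0 : ℝ) < q := by linarith
    have hle : (q : ℝ) ^ (1 - η) ≤ q := by
      calc (q : ℝ) ^ (1 - η) ≤ (q : ℝ) ^ (1 : ℝ) :=
            Real.rpow_le_rpow_of_exponent_le hq1.le (by linarith)
        _ = q := Real.rpow_one _
    have h1 := hqK _ le_rfl (by linarith)
    have h2 : 0 < c * (q : ℝ) ^ (1 - η) / Real.log q := by
      have := Real.log_pos hq1
      positivity
    have h3 : {k : ℕ | 1 ≤ k ∧ (k : ℝ) ≤ (q : ℝ) ^ (1 - η) ∧ ¬ q ∣ k ∧ 2 * k * q + 1 ∈ G}.ncard ≠ 0 := by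
      intro h0
      rw [h0] at h1
      norm_num at h1
      linarith
    obtain ⟨k, hk⟩ := Set.nonempty_of_ncard_ne_zero h3
    exact ⟨⟨2 * k * q + 1, hk.2.2.2⟩, k, hk.1, hk.2.1, hk.2.2.1, rfl⟩
  choose next hnext using hstep
  refine ⟨fun i => ((next^[i] ⟨p, hp⟩ : G) : ℕ), rfl, fun i => ⟨(next^[i] ⟨p, hp⟩).2, ?_⟩⟩
  obtain ⟨k, h1, h2, h3, h4⟩ := hnext (next^[i] ⟨p, hp⟩)
  refine ⟨k, h1, h2, h3, ?_⟩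
  show ((next^[i + 1] ⟨p, hp⟩ : G) : ℕ) = 2 * k * ((next^[i] ⟨p, hp⟩ : G) : ℕ) + 1
  rw [Function.iterate_succ_apply']
  exact h4

end Pool.Agent.PFo
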