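import Pool.Agent.PFo.Wt

/-!
A set of finite weight does not contain almost all primes of a residue class.
-/

namespace Pool.Agent.PFo

open scoped ENNReal

theorem inf_class (s : ℝ) (hs : s < 1) (B : Set ℕ) (hB : ms s B ≠ ⊤) (m : ℕ) (hm : 0 < m) (a : ℕ)
    (ha : a.Coprime m) : {p : ℕ | p.Prime ∧ p ∉ B ∧ p ≡ a [MOD m]}.Infinite := by
  classical
  intro hfin
  haveI : NeZero m := ⟨hm.ne'⟩
  have hu : IsUnit (a : ZMod m) := (ZMod.isUnit_iff_coprime a m).2 ha
  refine ArithmeticFunction.vonMangoldt.not_summable_residueClass_prime_div hu ?_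
  have hg : Summable (fun n : ℕ => B.indicator (fun n : ℕ => (n : ℝ) ^ (-s)) n) := by
    have h1 := ENNReal.summable_toReal hB
    refine h1.congr fun n => ?_
    by_cases hn : n ∈ B
    · rw [Set.indicator_of_mem hn, Set.indicator_of_mem hn,
        ENNReal.toReal_ofReal (Real.rpow_nonneg (Nat.cast_nonneg n) _)]
    · rw [Set.indicator_of_notMem hn, Set.indicator_of_notMem hn, ENNReal.toReal_zero]
  have hh : Summable (fun n : ℕ => if n ∈ hfin.toFinset then Real.log n / n else 0) :=
    summable_of_ne_finset_zero (s := hfin.toFinset) fun n hn => if_neg hn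
  have hε : 0 < 1 - s := by linarith
  refine Summable.of_nonneg_of_le (fun n => ?_) (fun n => ?_) ((hg.mul_left (1 / (1 - s))).add hh)
  · refine div_nonneg ?_ (Nat.cast_nonneg n)
    split_ifs
    · exact ArithmeticFunction.vonMangoldt.residueClass_nonneg _ n
    · exact le_rfl
  · have hg0 : 0 ≤ 1 / (1 - s) * B.indicator (fun n : ℕ => (n : ℝ) ^ (-s)) n :=
      mul_nonneg (by positivity)
        (Set.indicator_nonneg (fun n _ => Real.rpow_nonneg (Nat.cast_nonneg n) _) n)
    have hh0 : 0 ≤ (if n ∈ hfin.toFinset then Real.log n / n else 0 : ℝ) := by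
      split_ifs
      · exact div_nonneg (Real.log_natCast_nonneg n) (Nat.cast_nonneg n)
      · exact le_rfl
    by_cases hp : n.Prime
    · rw [if_pos hp]
      by_cases hc : (n : ZMod m) = (a : ZMod m)
      · have hle : ArithmeticFunction.vonMangoldt.residueClass (a : ZMod m) n ≤ Real.log n :=
          (ArithmeticFunction.vonMangoldt.residueClass_le _ n).trans
            ArithmeticFunction.vonMangoldt_le_log
        have hn0 : (0 : ℝ) < n := by exact_mod_cast hp.pos
        have h1 : ArithmeticFunction.vonMangoldt.residueClass (a : ZMod m) n / n ≤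
            Real.log n / n := by gcongr
        by_cases hnB : n ∈ B
        · have h2 : Real.log n / n ≤ 1 / (1 - s) * (n : ℝ) ^ (-s) := by
            have h3 := Real.log_le_rpow_div hn0.le hε
            have h4 : (n : ℝ) ^ (1 - s) = n * (n : ℝ) ^ (-s) := by
              rw [sub_eq_add_neg, Real.rpow_add hn0, Real.rpow_one]
            rw [div_le_iff₀ hn0]
            calc Real.log n ≤ (n : ℝ) ^ (1 - s) / (1 - s) := h3
              _ = 1 / (1 - s) * (n : ℝ) ^ (-s) * n := by rw [h4]; ring
          rw [Set.indicator_of_mem hnB] at hg0 ⊢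
          linarith
        · have hmem : n ∈ hfin.toFinset := by
            rw [Set.Finite.mem_toFinset]
            exact ⟨hp, hnB, (ZMod.natCast_eq_natCast_iff n a m).1 hc⟩
          rw [if_pos hmem]
          linarith
      · have h0 : ArithmeticFunction.vonMangoldt.residueClass (a : ZMod m) n = 0 := by
          rw [ArithmeticFunction.vonMangoldt.residueClass, Set.indicator_of_notMem]
          exact hc
        rw [h0, zero_div]
        positivity
    · rw [if_neg hp, zero_div]
      positivity

end Pool.Agent.PFo
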