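import Pool.Agent.PFo.Main
import Pool.Agent.PFo.Cls
import Pool.Agent.SVP.Tree5

/-!
[PFo-Fin] assembly, over the power saving theorem
-/

namespace Pool.Agent.PFo

/-- The result over the power saving theorem. -/
theorem result_of (hfin : ∃ c η δ C : ℝ, 0 < c ∧ 0 < η ∧ 0 < δ ∧ 0 < C ∧ PS c η δ C) :
    ∃ (c η δ C A B : ℝ) (G : Set ℕ), 0 < c ∧ 0 < η ∧ η < 1 ∧ 0 < δ ∧ 0 < C ∧ 0 < A ∧ 0 < B ∧
    (∀ p ∈ G, p.Prime ∧ p ≠ 2) ∧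
    (∀ X : ℝ, 2 ≤ X → ({p : ℕ | p.Prime ∧ (p : ℝ) ≤ X ∧ p ∉ G}.ncard : ℝ) ≤ C * X ^ (1 - δ)) ∧
    (∀ p ∈ G, ∀ K : ℝ, (p : ℝ) ^ (1 - η) ≤ K → K < 2 * ((p : ℝ) + 1) →
      c * K / Real.log p ≤
        ({k : ℕ | 1 ≤ k ∧ (k : ℝ) ≤ K ∧ ¬ p ∣ k ∧ 2 * k * p + 1 ∈ G}.ncard : ℝ) ∧
      ({k : ℕ | 1 ≤ k ∧ (k : ℝ) ≤ K ∧ ¬ p ∣ k ∧ (2 * k * p + 1).Prime ∧
        2 * k * p + 1 ∉ G}.ncard : ℝ) ≤ K * (p : ℝ) ^ (-δ)) ∧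
    (∀ p ∈ G, ∀ x : ℝ, (p : ℝ) ^ B ≤ x → x / ((p : ℝ) ^ B * Real.log x ^ A) ≤
      ({N : ℕ | (N : ℝ) ≤ x ∧ Relation.ReflTransGen (fun q r : ℕ => r ∈ G ∧
        ∃ k : ℕ, 1 ≤ k ∧ (k : ℝ) ≤ (q : ℝ) ^ (1 - η) ∧ r = 2 * k * q + 1) p N}.ncard : ℝ)) ∧
    (∀ p ∈ G, ∃ u k : ℕ → ℕ, u 0 = p ∧ ∀ i, u i ∈ G ∧ 1 ≤ k i ∧
      (k i : ℝ) ≤ (u i : ℝ) ^ (1 - η) ∧ u (i + 1) = 2 * k i * u i + 1) ∧
    (∀ m a : ℕ, 0 < m → a.Coprime m → {p : ℕ | p ∈ G ∧ p ≡ a [MOD m]}.Infinite) ∧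
    (∀ p : ℕ, p.Prime → p ≠ 2 → {k : ℕ | 2 * k * p + 1 ∈ G}.Infinite) := by
  classical
  obtain ⟨c, η, δ, C, hc, hη, hδ, hC, h⟩ := hfin
  obtain ⟨η', δ', C', s, B, h1, h2, h3, h4, h5, h6, h7, h8, h9⟩ := main_of hc hη hδ hC h
  set G : Set ℕ := {p | p.Prime ∧ p ∉ B} with hGdef
  have hGp : ∀ p ∈ G, p.Prime ∧ p ≠ 2 := by
    rintro p ⟨hp1, hp2⟩
    refine ⟨hp1, ?_⟩
    rintro rfl
    exact hp2 h7
  have hkids : ∀ p ∈ G, ∀ K : ℝ, (p : ℝ) ^ (1 - η') ≤ K → K < 2 * ((p : ℝ) + 1) →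
      c / 2 * K / Real.log p ≤
        ({k : ℕ | 1 ≤ k ∧ (k : ℝ) ≤ K ∧ ¬ p ∣ k ∧ 2 * k * p + 1 ∈ G}.ncard : ℝ) ∧
      ({k : ℕ | 1 ≤ k ∧ (k : ℝ) ≤ K ∧ ¬ p ∣ k ∧ (2 * k * p + 1).Prime ∧
        2 * k * p + 1 ∉ G}.ncard : ℝ) ≤ K * (p : ℝ) ^ (-δ') := by
    rintro p ⟨hp1, hp2⟩ K hK1 hK2
    obtain ⟨e1, e2⟩ := h9 p hp1 hp2 K hK1 hK2
    have hs : {k : ℕ | 1 ≤ k ∧ (k : ℝ) ≤ K ∧ ¬ p ∣ k ∧ (2 * k * p + 1).Prime ∧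
        2 * k * p + 1 ∉ G} = {k : ℕ | 1 ≤ k ∧ (k : ℝ) ≤ K ∧ ¬ p ∣ k ∧ (2 * k * p + 1).Prime ∧
        2 * k * p + 1 ∈ B} := by
      ext k
      simp only [hGdef, Set.mem_setOf_eq]
      tauto
    rw [hs]
    exact ⟨e1, e2⟩
  have hclo : ∀ p ∈ G, p.Prime ∧ p ≠ 2 ∧ ∀ K : ℝ, (p : ℝ) ^ (1 - η') ≤ K →
      K < 2 * ((p : ℝ) + 1) → c / 2 * K / Real.log p ≤
        ({k : ℕ | 1 ≤ k ∧ (k : ℝ) ≤ K ∧ ¬ p ∣ k ∧ 2 * k * p + 1 ∈ G}.ncard : ℝ) :=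
    fun p hp => ⟨(hGp p hp).1, (hGp p hp).2, fun K hK1 hK2 => (hkids p hp K hK1 hK2).1⟩
  obtain ⟨A, D, ε, hA, hD, hε, htr⟩ :=
    Pool.Agent.SVP.Tree.tree_density (G := G) (c := c / 2) (η := η') hclo (by positivity) h1
  set ζ : ℝ := min η' ε with hζ
  have hζ0 : 0 < ζ := lt_min h1 hε
  have hζη : ζ ≤ η' := min_le_left _ _
  have hζε : ζ ≤ ε := min_le_right _ _
  have hpow : ∀ p ∈ G, ∀ a b : ℝ, a ≤ b → (p : ℝ) ^ (1 - b) ≤ (p : ℝ) ^ (1 - a) := by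
    intro p hp a b hab
    exact Real.rpow_le_rpow_of_exponent_le (by exact_mod_cast (hGp p hp).1.one_lt.le) (by linarith)
  have hcl : ∀ m a : ℕ, 0 < m → a.Coprime m → {p : ℕ | p ∈ G ∧ p ≡ a [MOD m]}.Infinite := by
    intro m a hm ha
    refine (inf_class s h5 B h6 m hm a ha).mono ?_
    rintro p ⟨hp1, hp2, hp3⟩
    exact ⟨⟨hp1, hp2⟩, hp3⟩
  refine ⟨c / 2, ζ, δ', C', A, D, G, by positivity, hζ0, by linarith, h3, h4, hA, hD, hGp, ?_,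
    fun p hp K hK1 hK2 => hkids p hp K ((hpow p hp _ _ hζη).trans hK1) hK2, ?_, ?_, hcl, ?_⟩
  · intro X hX
    have hs : {p : ℕ | p.Prime ∧ (p : ℝ) ≤ X ∧ p ∉ G} =
        {p : ℕ | p.Prime ∧ (p : ℝ) ≤ X ∧ p ∈ B} := by
      ext p
      simp only [hGdef, Set.mem_setOf_eq]
      tauto
    rw [hs]
    exact h8 X hX
  · intro p hp x hx
    refine (htr p hp x hx).trans ?_
    have hfin : {N : ℕ | (N : ℝ) ≤ x ∧ Relation.ReflTransGen (fun q r : ℕ => r ∈ G ∧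
        ∃ k : ℕ, 1 ≤ k ∧ (k : ℝ) ≤ (q : ℝ) ^ (1 - ζ) ∧ r = 2 * k * q + 1) p N}.Finite := by
      refine (Set.finite_Iic ⌊x⌋₊).subset ?_
      rintro N ⟨hN, -⟩
      exact Nat.le_floor hN
    have hsub : {N : ℕ | (N : ℝ) ≤ x ∧
        Relation.ReflTransGen (Pool.Agent.SVP.Tree.Step G ε) p N} ⊆
        {N : ℕ | (N : ℝ) ≤ x ∧ Relation.ReflTransGen (fun q r : ℕ => r ∈ G ∧
        ∃ k : ℕ, 1 ≤ k ∧ (k : ℝ) ≤ (q : ℝ) ^ (1 - ζ) ∧ r = 2 * k * q + 1) p N} := by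
      rintro N ⟨hN, hpN⟩
      refine ⟨hN, ?_⟩
      have key : p ∈ G ∧ ∀ M : ℕ, Relation.ReflTransGen (Pool.Agent.SVP.Tree.Step G ε) p M →
          M ∈ G ∧ Relation.ReflTransGen (fun q r : ℕ => r ∈ G ∧
            ∃ k : ℕ, 1 ≤ k ∧ (k : ℝ) ≤ (q : ℝ) ^ (1 - ζ) ∧ r = 2 * k * q + 1) p M := by
        refine ⟨hp, fun M hM => ?_⟩
        induction hM with
        | refl => exact ⟨hp, Relation.ReflTransGen.refl⟩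
        | tail _ h2 ih =>
          obtain ⟨hr, k, hk1, hk2, -, hk3⟩ := h2
          exact ⟨hr, ih.2.tail ⟨hr, k, hk1, hk2.trans (hpow _ ih.1 _ _ hζε), hk3⟩⟩
      exact (key.2 N hpN).2
    exact_mod_cast Set.ncard_le_ncard hsub hfin
  · intro p hp
    obtain ⟨u, hu0, hu⟩ := chain (by positivity : (0 : ℝ) < c / 2) hζ0 G
      (fun p hp => ⟨(hclo p hp).1, fun K hK1 hK2 =>
        (hclo p hp).2.2 K ((hpow p hp _ _ hζη).trans hK1) hK2⟩) p hp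
    choose hu1 k hk1 hk2 hk3 hk4 using hu
    exact ⟨u, k, hu0, fun i => ⟨hu1 i, hk1 i, hk2 i, hk4 i⟩⟩
  · intro p hp hp2
    have hinf := hcl p 1 hp.pos (Nat.coprime_one_left p)
    by_contra hcon
    rw [Set.not_infinite] at hcon
    apply hinf
    refine (hcon.image (fun k : ℕ => 2 * k * p + 1)).subset ?_
    rintro q ⟨hq1, hq2⟩
    obtain ⟨hqp, hq2'⟩ := hGp q hq1
    have hdvd : p ∣ q - 1 := (Nat.modEq_iff_dvd' hqp.one_lt.le).1 hq2.symm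
    have hodd : Odd q := hqp.odd_of_ne_two hq2'
    have h2 : 2 ∣ q - 1 := by
      obtain ⟨j, hj⟩ := hodd
      exact ⟨j, by omega⟩
    have hcop : Nat.Coprime 2 p := by
      rw [Nat.coprime_primes Nat.prime_two hp]
      exact fun h => hp2 h.symm
    obtain ⟨k, hk⟩ := hcop.mul_dvd_of_dvd_of_dvd h2 hdvd
    have hq : 2 * k * p + 1 = q := by
      have h1q := hqp.one_lt
      have : 2 * k * p = 2 * p * k := by ring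
      omega
    refine ⟨k, ?_, hq⟩
    simp only [Set.mem_setOf_eq]
    rw [hq]
    exact hq1

end Pool.Agent.PFo
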