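import Pool.Agent.PFo.Step

/-!
The set `G` of primes which is closed under the step, from a power saving exceptional set.
-/

namespace Pool.Agent.PFo

open Finset Filter
open scoped ENNReal Topology

/-- The hypothesis: a power saving exceptional set. -/
def PS (c η δ C : ℝ) : Prop := ∀ X : ℝ, 2 ≤ X →
  ∃ B : Finset ℕ, (B.card : ℝ) ≤ C * X ^ (1 - δ) ∧ ∀ p : ℕ, p.Prime → p ≠ 2 → (p : ℝ) ≤ X → p ∉ B →
    ∀ K : ℝ, (p : ℝ) ^ (1 - η) ≤ K → K < 2 * ((p : ℝ) + 1) →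
      c * K / Real.log p ≤
        (((Icc 1 ⌊K⌋₊).filter (fun k : ℕ => ¬ p ∣ k ∧ (2 * k * p + 1).Prime)).card : ℝ)

/-- The primes without the property. -/
def exc (c η : ℝ) : Set ℕ := {p | p.Prime ∧ p ≠ 2 ∧ ¬ ∀ K : ℝ, (p : ℝ) ^ (1 - η) ≤ K →
  K < 2 * ((p : ℝ) + 1) → c * K / Real.log p ≤
    (((Icc 1 ⌊K⌋₊).filter (fun k : ℕ => ¬ p ∣ k ∧ (2 * k * p + 1).Prime)).card : ℝ)}

theorem ms_exc {c η δ C s : ℝ} (hC : 0 ≤ C) (h : PS c η δ C) (hs : 0 ≤ s) (hδ : 1 - δ < s) :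
    ms s (exc c η) ≠ ⊤ := by
  refine ms_of_count s δ C hs hδ hC _ fun X hX => ?_
  obtain ⟨B, hB1, hB2⟩ := h X hX
  refine ⟨B, hB1, fun p hp hpX => ?_⟩
  obtain ⟨h1, h2, h3⟩ := hp
  by_contra h4
  exact h3 (hB2 p h1 h2 hpX h4)

/-- The bad sets. -/
def bseq (η δ : ℝ) (P0 : ℕ) (B0 : Set ℕ) : ℕ → Set ℕ
  | 0 => B0
  | j + 1 => B0 ∪ bad η δ P0 (bseq η δ P0 B0 j)

theorem bseq_mono (η δ : ℝ) (P0 : ℕ) (B0 : Set ℕ) : Monotone (bseq η δ P0 B0) := by
  refine monotone_nat_of_le_succ fun j => ?_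
  induction j with
  | zero => exact Set.subset_union_left
  | succ j ih => exact Set.union_subset_union_right _ (bad_mono η δ P0 ih)

/-- A small set of primes which contains the exceptional set, all `p ≤ P0` and all primes with too many
children in it. -/
theorem closure {s η δ : ℝ} (hs0 : 0 ≤ s) (hs1 : s < 1) (hβ : δ < (1 - η) * (1 - s))
    (E : Set ℕ) (hE : ms s E ≠ ⊤) : ∃ (P0 : ℕ), 1 ≤ P0 ∧ ∀ P1 : ℕ, ∃ U : Set ℕ, E ⊆ U ∧
      (∀ n, n ≤ P1 → n ∈ U) ∧ (∀ n, n ≤ P0 → n ∈ U) ∧ ms s U ≠ ⊤ ∧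
      ∀ p : ℕ, p.Prime → p ∉ U → ∀ K : ℝ, (p : ℝ) ^ (1 - η) ≤ K → K < 2 * ((p : ℝ) + 1) →
        ((kids U p K).card : ℝ) ≤ K * (p : ℝ) ^ (-δ) := by
  classical
  obtain ⟨P0, hP0, hstep⟩ := step s η δ hs0 hs1 hβ
  refine ⟨P0, hP0, fun P1 => ?_⟩
  set B0 : Set ℕ := E ∪ Set.Iic (max P1 P0) with hB0
  have hm0 : ms s B0 ≠ ⊤ :=
    ne_top_of_le_ne_top (ENNReal.add_ne_top.2 ⟨hE, ms_finite s (Set.finite_Iic _)⟩)
      (ms_union_le s _ _)
  have hj : ∀ j, ms s (bseq η δ P0 B0 j) ≤ 2 * ms s B0 := by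
    intro j
    induction j with
    | zero =>
      show ms s B0 ≤ 2 * ms s B0
      rw [two_mul]
      exact le_self_add
    | succ j ih =>
      calc ms s (bseq η δ P0 B0 (j + 1)) ≤ ms s B0 + ms s (bad η δ P0 (bseq η δ P0 B0 j)) :=
            ms_union_le s _ _
        _ ≤ ms s B0 + 2⁻¹ * (2 * ms s B0) := by
            gcongr
            exact (hstep _).trans (mul_le_mul_right ih _)
        _ = 2 * ms s B0 := by
            rw [← mul_assoc, ENNReal.inv_mul_cancel two_ne_zero ENNReal.ofNat_ne_top, one_mul,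
              two_mul]
  set U : Set ℕ := ⋃ j, bseq η δ P0 B0 j with hU
  have hB0U : B0 ⊆ U := Set.subset_iUnion (bseq η δ P0 B0) 0
  refine ⟨U, Set.subset_union_left.trans hB0U, fun n hn => hB0U (Or.inr ?_),
    fun n hn => hB0U (Or.inr ?_),
    ne_top_of_le_ne_top (ENNReal.mul_ne_top ENNReal.ofNat_ne_top hm0)
      (ms_iUnion_le s _ (bseq_mono η δ P0 B0) _ hj), ?_⟩
  · exact Set.mem_Iic.2 (hn.trans (le_max_left _ _))
  · exact Set.mem_Iic.2 (hn.trans (le_max_right _ _))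
  intro p hp hpU K hK1 hK2
  have hpP0 : P0 < p := by
    by_contra hcon
    exact hpU (hB0U (Or.inr (Set.mem_Iic.2 ((not_lt.1 hcon).trans (le_max_right _ _)))))
  -- the finite set is contained in one of the sets
  have hex : ∃ j, kids U p K ⊆ kids (bseq η δ P0 B0 j) p K := by
    have hgen : ∀ F : Finset ℕ, (∀ k ∈ F, 2 * k * p + 1 ∈ U) →
        ∃ j, ∀ k ∈ F, 2 * k * p + 1 ∈ bseq η δ P0 B0 j := by
      intro F
      induction F using Finset.induction_on with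
      | empty => exact fun _ => ⟨0, fun k hk => absurd hk (Finset.notMem_empty k)⟩
      | insert a F _ ih =>
        intro hF
        obtain ⟨j, hj⟩ := ih fun k hk => hF k (Finset.mem_insert_of_mem hk)
        obtain ⟨i, hi⟩ := Set.mem_iUnion.1 (hF a (Finset.mem_insert_self a F))
        refine ⟨max i j, fun k hk => ?_⟩
        rcases Finset.mem_insert.1 hk with rfl | hk'
        · exact bseq_mono η δ P0 B0 (le_max_left i j) hi
        · exact bseq_mono η δ P0 B0 (le_max_right i j) (hj k hk')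
    obtain ⟨j, hj⟩ := hgen (kids U p K) fun k hk => by
      unfold kids at hk
      exact (Finset.mem_filter.1 hk).2.2
    refine ⟨j, fun k hk => ?_⟩
    have h1 := hj k hk
    unfold kids at hk ⊢
    rw [Finset.mem_filter] at hk ⊢
    exact ⟨hk.1, hk.2.1, h1⟩
  obtain ⟨j, hj'⟩ := hex
  have hnot : p ∉ bad η δ P0 (bseq η δ P0 B0 j) := fun hcon =>
    hpU (Set.mem_iUnion.2 ⟨j + 1, Or.inr hcon⟩)
  have h2 : ((kids (bseq η δ P0 B0 j) p K).card : ℝ) ≤ K * (p : ℝ) ^ (-δ) := by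
    by_contra hcon
    exact hnot ⟨hp, hpP0, K, hK1, hK2, not_le.1 hcon⟩
  refine le_trans ?_ h2
  exact_mod_cast Finset.card_le_card hj'

open Classical in
/-- The forest: the set `G`. -/
theorem forest_of {c η δ C : ℝ} (hc : 0 < c) (hη : 0 < η) (hδ : 0 < δ) (hC : 0 < C)
    (h : PS c η δ C) : ∃ (η' δ' C' : ℝ) (B : Set ℕ) (s : ℝ), 0 < η' ∧ η' < 1 ∧ η' ≤ η ∧ 0 < δ' ∧
      0 < C' ∧ s < 1 ∧ ms s B ≠ ⊤ ∧ 2 ∈ B ∧
      (∀ X : ℝ, 2 ≤ X → ∃ U : Finset ℕ, (U.card : ℝ) ≤ C' * X ^ (1 - δ') ∧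
        ∀ p : ℕ, p.Prime → (p : ℝ) ≤ X → p ∉ U → p ∉ B) ∧
      ∀ p : ℕ, p.Prime → p ∉ B → ∀ K : ℝ, (p : ℝ) ^ (1 - η') ≤ K → K < 2 * ((p : ℝ) + 1) →
        c * K / Real.log p ≤
          (((Icc 1 ⌊K⌋₊).filter (fun k : ℕ => ¬ p ∣ k ∧ (2 * k * p + 1).Prime)).card : ℝ) ∧
        c / 2 * K / Real.log p ≤
          (((Icc 1 ⌊K⌋₊).filter
            (fun k : ℕ => ¬ p ∣ k ∧ (2 * k * p + 1).Prime ∧ 2 * k * p + 1 ∉ B)).card : ℝ) ∧
        (((Icc 1 ⌊K⌋₊).filter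
            (fun k : ℕ => ¬ p ∣ k ∧ (2 * k * p + 1).Prime ∧ 2 * k * p + 1 ∈ B)).card : ℝ) ≤
          K * (p : ℝ) ^ (-δ') := by
  set η' : ℝ := min η (1 / 2) with hη'
  have hη'0 : 0 < η' := lt_min hη (by norm_num)
  have hη'1 : η' ≤ 1 / 2 := min_le_right _ _
  set δ1 : ℝ := min (δ / 2) (1 / 2) with hδ1
  have hδ10 : 0 < δ1 := lt_min (by positivity) (by norm_num)
  have hδ11 : δ1 ≤ 1 / 2 := min_le_right _ _
  have hδ12 : δ1 ≤ δ / 2 := min_le_left _ _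
  set s : ℝ := 1 - δ1 with hs
  set δ' : ℝ := δ1 / 4 with hδ'
  have hδ'0 : 0 < δ' := by positivity
  have hβ : δ' < (1 - η') * (1 - s) := by
    have h1 : 1 - s = δ1 := by rw [hs]; ring
    rw [h1, hδ']
    nlinarith
  have hE := ms_exc hC.le h (s := s) (by linarith) (by linarith)
  obtain ⟨P0, hP0, hcl⟩ := closure (s := s) (by linarith) (by linarith) hβ _ hE
  -- large `p`
  have hev := (isLittleO_log_rpow_atTop (r := δ') hδ'0).bound (show 0 < c / 2 by positivity)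
  obtain ⟨x0, hx0⟩ := Filter.eventually_atTop.1 hev
  obtain ⟨B, hB1, hB2, hB3, hB4, hB5⟩ := hcl (max 2 ⌈x0⌉₊)
  have hpow : ∀ p : ℕ, 1 ≤ p → (p : ℝ) ^ (1 - η) ≤ (p : ℝ) ^ (1 - η') := fun p hp =>
    Real.rpow_le_rpow_of_exponent_le (by exact_mod_cast hp) (by linarith [min_le_left η (1 / 2)])
  refine ⟨η', δ', (ms s B).toReal + 1, B, s, hη'0, by linarith, min_le_left _ _, hδ'0,
    by positivity, by linarith, hB4, hB2 2 (le_max_left _ _), fun X hX => ?_,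
    fun p hp hpB K hK1 hK2 => ?_⟩
  · refine ⟨(Finset.range (⌊X⌋₊ + 1)).filter (fun p => p.Prime ∧ p ∈ B), ?_,
      fun p hp hpX hpU hpB => hpU (Finset.mem_filter.2 ⟨?_, hp, hpB⟩)⟩
    · have h1 := card_le_of_ms s (by linarith) B X
        ((Finset.range (⌊X⌋₊ + 1)).filter (fun p => p.Prime ∧ p ∈ B)) (fun n hn => by
          obtain ⟨h2, h3, h4⟩ := Finset.mem_filter.1 hn
          refine ⟨h4, h3.one_le, ?_⟩
          exact (Nat.le_floor_iff (by linarith)).1 (Nat.lt_succ_iff.1 (Finset.mem_range.1 h2)))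
      have h2 : ENNReal.ofReal (X ^ s) * ms s B = ENNReal.ofReal (X ^ s * (ms s B).toReal) := by
        rw [ENNReal.ofReal_mul (by positivity), ENNReal.ofReal_toReal hB4]
      rw [h2] at h1
      have h3 := (ENNReal.ofReal_le_ofReal_iff (by positivity)).1 h1
      refine h3.trans ?_
      have h4 : X ^ s ≤ X ^ (1 - δ') :=
        Real.rpow_le_rpow_of_exponent_le (by linarith) (by rw [hs, hδ']; linarith)
      have h5 : 0 ≤ (ms s B).toReal := ENNReal.toReal_nonneg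
      have h6 : 0 ≤ X ^ (1 - δ') := by positivity
      calc X ^ s * (ms s B).toReal ≤ X ^ (1 - δ') * (ms s B).toReal := by gcongr
        _ ≤ _ := by nlinarith
    · exact Finset.mem_range.2 (Nat.lt_succ_of_le (Nat.le_floor hpX))
  · have hp1 : 1 ≤ p := hp.one_le
    have hp0 : (0 : ℝ) < p := by exact_mod_cast hp.pos
    have hp2 : p ≠ 2 := fun h2 => hpB (h2 ▸ hB2 2 (le_max_left _ _))
    have hpx : x0 ≤ p := by
      by_contra hcon
      refine hpB (hB2 p (le_trans ?_ (le_max_right _ _)))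
      have : (p : ℝ) ≤ (⌈x0⌉₊ : ℝ) := (not_le.1 hcon).le.trans (Nat.le_ceil x0)
      exact_mod_cast this
    have hlog0 : 0 < Real.log p := Real.log_pos (by exact_mod_cast hp.one_lt)
    have hlog := hx0 p hpx
    rw [Real.norm_of_nonneg hlog0.le, Real.norm_of_nonneg (by positivity)] at hlog
    have hK0 : 0 < K := lt_of_lt_of_le (by positivity) hK1
    have hpE : p ∉ exc c η := fun h1 => hpB (hB1 h1)
    have hall : c * K / Real.log p ≤
        (((Icc 1 ⌊K⌋₊).filter (fun k : ℕ => ¬ p ∣ k ∧ (2 * k * p + 1).Prime)).card : ℝ) := by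
      by_contra hcon
      exact hpE ⟨hp, hp2, fun h1 => hcon (h1 K ((hpow p hp1).trans hK1) hK2)⟩
    have hbadk : (((Icc 1 ⌊K⌋₊).filter
            (fun k : ℕ => ¬ p ∣ k ∧ (2 * k * p + 1).Prime ∧ 2 * k * p + 1 ∈ B)).card : ℝ) ≤
          K * (p : ℝ) ^ (-δ') := by
      refine le_trans ?_ (hB5 p hp hpB K hK1 hK2)
      norm_cast
      refine Finset.card_le_card fun k hk => ?_
      rw [Finset.mem_filter] at hk
      unfold kids
      exact Finset.mem_filter.2 ⟨hk.1, hk.2.1, hk.2.2.2⟩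
    refine ⟨hall, ?_, hbadk⟩
    have hsplit : (((Icc 1 ⌊K⌋₊).filter (fun k : ℕ => ¬ p ∣ k ∧ (2 * k * p + 1).Prime)).card : ℝ) ≤
        (((Icc 1 ⌊K⌋₊).filter
            (fun k : ℕ => ¬ p ∣ k ∧ (2 * k * p + 1).Prime ∧ 2 * k * p + 1 ∉ B)).card : ℝ) +
        (((Icc 1 ⌊K⌋₊).filter
            (fun k : ℕ => ¬ p ∣ k ∧ (2 * k * p + 1).Prime ∧ 2 * k * p + 1 ∈ B)).card : ℝ) := by
      norm_cast
      refine le_trans (Finset.card_le_card fun k hk => ?_) (Finset.card_union_le _ _)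
      rw [Finset.mem_filter] at hk
      by_cases hkB : 2 * k * p + 1 ∈ B
      · exact Finset.mem_union_right _ (Finset.mem_filter.2 ⟨hk.1, hk.2.1, hk.2.2, hkB⟩)
      · exact Finset.mem_union_left _ (Finset.mem_filter.2 ⟨hk.1, hk.2.1, hk.2.2, hkB⟩)
    have hsmall : K * (p : ℝ) ^ (-δ') ≤ c / 2 * K / Real.log p := by
      rw [Real.rpow_neg hp0.le, ← div_eq_mul_inv, div_le_div_iff₀ (by positivity) hlog0]
      nlinarith
    have heq : c * K / Real.log p = c / 2 * K / Real.log p + c / 2 * K / Real.log p := by ring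
    linarith

end Pool.Agent.PFo
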