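import Pool.Agent.PFo.Chain

/-!
The closed set of primes, in the form of the result.
-/

namespace Pool.Agent.PFo

open Finset Filter

theorem ncard_icc (P : ℕ → Prop) [DecidablePred P] (K : ℝ) (hK : 0 ≤ K) :
    {k : ℕ | 1 ≤ k ∧ (k : ℝ) ≤ K ∧ P k}.ncard = ((Icc 1 ⌊K⌋₊).filter P).card := by
  have h : {k : ℕ | 1 ≤ k ∧ (k : ℝ) ≤ K ∧ P k} = (((Icc 1 ⌊K⌋₊).filter P : Finset ℕ) : Set ℕ) := by
    ext k
    simp only [Set.mem_setOf_eq, Finset.coe_filter, Finset.mem_Icc]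
    rw [Nat.le_floor_iff hK]
    tauto
  rw [h, Set.ncard_coe_finset]

/-- The closed set `G`, over the power saving theorem. -/
theorem main_of {c η δ C : ℝ} (hc : 0 < c) (hη : 0 < η) (hδ : 0 < δ) (hC : 0 < C)
    (h : PS c η δ C) : ∃ (η' δ' C' s : ℝ) (B : Set ℕ), 0 < η' ∧ η' < 1 ∧ 0 < δ' ∧
      0 < C' ∧ s < 1 ∧ ms s B ≠ ⊤ ∧ 2 ∈ B ∧
      (∀ X : ℝ, 2 ≤ X → ({p : ℕ | p.Prime ∧ (p : ℝ) ≤ X ∧ p ∈ B}.ncard : ℝ) ≤ C' * X ^ (1 - δ')) ∧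
      ∀ p : ℕ, p.Prime → p ∉ B → ∀ K : ℝ, (p : ℝ) ^ (1 - η') ≤ K → K < 2 * ((p : ℝ) + 1) →
        c / 2 * K / Real.log p ≤
          ({k : ℕ | 1 ≤ k ∧ (k : ℝ) ≤ K ∧ ¬ p ∣ k ∧ (2 * k * p + 1).Prime ∧
            2 * k * p + 1 ∉ B}.ncard : ℝ) ∧
        ({k : ℕ | 1 ≤ k ∧ (k : ℝ) ≤ K ∧ ¬ p ∣ k ∧ (2 * k * p + 1).Prime ∧
            2 * k * p + 1 ∈ B}.ncard : ℝ) ≤ K * (p : ℝ) ^ (-δ') := by
  classical
  obtain ⟨η', δ', C', B, s, h1, h2, -, h3, h4, h5, h6, h7, h8, h9⟩ := forest_of hc hη hδ hC h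
  refine ⟨η', δ', C', s, B, h1, h2, h3, h4, h5, h6, h7, fun X hX => ?_, fun p hp hpB K hK1 hK2 => ?_⟩
  · obtain ⟨U, hU1, hU2⟩ := h8 X hX
    refine le_trans ?_ hU1
    have hsub : {p : ℕ | p.Prime ∧ (p : ℝ) ≤ X ∧ p ∈ B} ⊆ (U : Set ℕ) := by
      rintro p ⟨hp1, hp2, hp3⟩
      by_contra hcon
      exact hU2 p hp1 hp2 (fun h => hcon (Finset.mem_coe.2 h)) hp3
    have := Set.ncard_le_ncard hsub U.finite_toSet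
    rw [Set.ncard_coe_finset] at this
    exact_mod_cast this
  · have hp0 : (0 : ℝ) < p := by exact_mod_cast hp.pos
    have hK0 : 0 ≤ K := le_trans (by positivity) hK1
    obtain ⟨-, e2, e3⟩ := h9 p hp hpB K hK1 hK2
    rw [ncard_icc (fun k : ℕ => ¬ p ∣ k ∧ (2 * k * p + 1).Prime ∧ 2 * k * p + 1 ∉ B) K hK0,
      ncard_icc (fun k : ℕ => ¬ p ∣ k ∧ (2 * k * p + 1).Prime ∧ 2 * k * p + 1 ∈ B) K hK0]
    exact ⟨e2, e3⟩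

end Pool.Agent.PFo
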