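import Pool.Agent.PFo.Wt

/-!
The contraction: the primes with too many children in `S` have at most half the weight of `S`.
-/

namespace Pool.Agent.PFo

open Finset Filter
open scoped ENNReal Topology

open Classical in
/-- The `k ≤ K` prime to `p` with `2kp+1 ∈ S`. -/
noncomputable def kids (S : Set ℕ) (p : ℕ) (K : ℝ) : Finset ℕ :=
  (Icc 1 ⌊K⌋₊).filter (fun k : ℕ => ¬ p ∣ k ∧ 2 * k * p + 1 ∈ S)

/-- The primes `p > P0` with more than `K p^(-δ)` children in `S` for some `K`. -/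
def bad (η δ : ℝ) (P0 : ℕ) (S : Set ℕ) : Set ℕ :=
  {p | p.Prime ∧ P0 < p ∧ ∃ K : ℝ, (p : ℝ) ^ (1 - η) ≤ K ∧ K < 2 * ((p : ℝ) + 1) ∧
    K * (p : ℝ) ^ (-δ) < ((kids S p K).card : ℝ)}

theorem kids_mono {S T : Set ℕ} (h : S ⊆ T) (p : ℕ) (K : ℝ) : kids S p K ⊆ kids T p K := by
  classical
  intro k hk
  unfold kids at hk ⊢
  rw [Finset.mem_filter] at hk ⊢
  exact ⟨hk.1, hk.2.1, h hk.2.2⟩

theorem bad_mono (η δ : ℝ) (P0 : ℕ) {S T : Set ℕ} (h : S ⊆ T) : bad η δ P0 S ⊆ bad η δ P0 T := by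
  rintro p ⟨h1, h2, K, h3, h4, h5⟩
  refine ⟨h1, h2, K, h3, h4, h5.trans_le ?_⟩
  exact_mod_cast Finset.card_le_card (kids_mono h p K)

/-- The number of prime factors. -/
theorem card_primeFactors_le (n : ℕ) (hn : n ≠ 0) :
    (n.primeFactors.card : ℝ) * Real.log 2 ≤ Real.log n := by
  have h1 : 2 ^ n.primeFactors.card ≤ n := by
    calc 2 ^ n.primeFactors.card = ∏ _p ∈ n.primeFactors, 2 := by rw [Finset.prod_const]
      _ ≤ ∏ p ∈ n.primeFactors, p :=
          Finset.prod_le_prod' fun p hp => (Nat.prime_of_mem_primeFactors hp).two_le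
      _ ≤ n := Nat.le_of_dvd (Nat.pos_of_ne_zero hn) (Nat.prod_primeFactors_dvd n)
  rw [← Real.log_pow]
  refine Real.log_le_log (by positivity) ?_
  exact_mod_cast h1

/-- The relation between a parent `p` and a child `q`. -/
def Rel (P0 p q : ℕ) : Prop := p.Prime ∧ P0 < p ∧ p ∣ q - 1 ∧ 1 < q ∧ (q : ℝ) ≤ (3 * p) ^ 2

/-- The parents of one number have small total weight. -/
theorem parents (β : ℝ) (hβ : 0 < β) : ∃ P0 : ℕ, 1 ≤ P0 ∧ ∀ q : ℕ,
    ∑' p : ℕ, {p | Rel P0 p q}.indicator (fun p : ℕ => ENNReal.ofReal (3 * (p : ℝ) ^ (-β))) p ≤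
      2⁻¹ := by
  classical
  have hl2 : 0 < Real.log 2 := Real.log_pos one_lt_two
  set ε : ℝ := Real.log 2 / (2 * (3 * 3 ^ β)) with hε
  have hε0 : 0 < ε := by positivity
  have hev := (isLittleO_log_rpow_atTop (r := β / 2) (by positivity)).bound hε0
  obtain ⟨x0, hx0⟩ := Filter.eventually_atTop.1 hev
  refine ⟨max 1 ⌈x0⌉₊, le_max_left _ _, fun q => ?_⟩
  set P0 : ℕ := max 1 ⌈x0⌉₊ with hP0
  by_cases hex : ∃ p, Rel P0 p q
  · obtain ⟨p1, h1, h2, h3, h4, h5⟩ := hex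
    have hq0 : q - 1 ≠ 0 := by omega
    have hp1q : p1 ≤ q - 1 := Nat.le_of_dvd (by omega) h3
    have hqP : P0 < q := by omega
    have hqx : x0 ≤ q := by
      have : (⌈x0⌉₊ : ℝ) ≤ q := by
        have h6 : ⌈x0⌉₊ ≤ P0 := le_max_right _ _
        exact_mod_cast (h6.trans hqP.le)
      exact (Nat.le_ceil x0).trans this
    have hq1 : (1 : ℝ) < q := by exact_mod_cast h4
    have hq00 : (0 : ℝ) < q := by linarith
    have hlog := hx0 q hqx
    rw [Real.norm_of_nonneg (Real.log_nonneg hq1.le), Real.norm_of_nonneg (by positivity)] at hlog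
    have hcard : ((q - 1).primeFactors.card : ℝ) * Real.log 2 ≤ Real.log q := by
      refine (card_primeFactors_le (q - 1) hq0).trans (Real.log_le_log ?_ ?_)
      · exact_mod_cast Nat.pos_of_ne_zero hq0
      · exact_mod_cast Nat.sub_le q 1
    rw [tsum_eq_sum (s := (q - 1).primeFactors) (fun p hp => by
      rw [Set.indicator_of_notMem]
      rintro ⟨h6, -, h7, -, -⟩
      exact hp (Nat.mem_primeFactors.2 ⟨h6, h7, hq0⟩))]
    have hterm : ∀ p ∈ (q - 1).primeFactors,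
        {p | Rel P0 p q}.indicator (fun p : ℕ => ENNReal.ofReal (3 * (p : ℝ) ^ (-β))) p ≤
          ENNReal.ofReal (3 * 3 ^ β * (q : ℝ) ^ (-(β / 2))) := by
      intro p _
      by_cases hR : Rel P0 p q
      · rw [Set.indicator_of_mem (show p ∈ {p | Rel P0 p q} from hR)]
        refine ENNReal.ofReal_le_ofReal ?_
        obtain ⟨h6, -, -, -, h7⟩ := hR
        have hp0 : (0 : ℝ) < p := by exact_mod_cast h6.pos
        have h8 : ((3 * (p : ℝ)) ^ 2) ^ (-(β / 2)) ≤ (q : ℝ) ^ (-(β / 2)) :=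
          Real.rpow_le_rpow_of_nonpos hq00 h7 (by linarith)
        have h9 : ((3 * (p : ℝ)) ^ 2) ^ (-(β / 2)) = 3 ^ (-β) * (p : ℝ) ^ (-β) := by
          rw [← Real.rpow_natCast, ← Real.rpow_mul (by positivity), Real.mul_rpow (by norm_num) hp0.le]
          push_cast
          ring_nf
        rw [h9] at h8
        calc 3 * (p : ℝ) ^ (-β) = 3 * 3 ^ β * (3 ^ (-β) * (p : ℝ) ^ (-β)) := by
              rw [Real.rpow_neg (by norm_num : (0 : ℝ) ≤ 3)]
              field_simp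
          _ ≤ _ := by gcongr
      · rw [Set.indicator_of_notMem (show p ∉ {p | Rel P0 p q} from hR)]
        exact zero_le
    refine (Finset.sum_le_sum hterm).trans ?_
    rw [Finset.sum_const, nsmul_eq_mul, ← ENNReal.ofReal_natCast, ← ENNReal.ofReal_mul (by positivity),
      show (2⁻¹ : ℝ≥0∞) = ENNReal.ofReal 2⁻¹ by
        rw [ENNReal.ofReal_inv_of_pos (by norm_num)]
        norm_num]
    refine ENNReal.ofReal_le_ofReal ?_
    have h10 : ((q - 1).primeFactors.card : ℝ) ≤ ε / Real.log 2 * (q : ℝ) ^ (β / 2) := by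
      rw [div_mul_eq_mul_div, le_div_iff₀ hl2]
      linarith
    have h11 : (q : ℝ) ^ (β / 2) * (q : ℝ) ^ (-(β / 2)) = 1 := by
      rw [← Real.rpow_add hq00]
      simp
    calc ((q - 1).primeFactors.card : ℝ) * (3 * 3 ^ β * (q : ℝ) ^ (-(β / 2)))
        ≤ (ε / Real.log 2 * (q : ℝ) ^ (β / 2)) * (3 * 3 ^ β * (q : ℝ) ^ (-(β / 2))) := by gcongr
      _ = ε / Real.log 2 * (3 * 3 ^ β) * ((q : ℝ) ^ (β / 2) * (q : ℝ) ^ (-(β / 2))) := by ring
      _ = 2⁻¹ := by
          rw [h11, hε]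
          field_simp
  · have h0 : ∀ p, {p | Rel P0 p q}.indicator
        (fun p : ℕ => ENNReal.ofReal (3 * (p : ℝ) ^ (-β))) p = 0 := fun p =>
      Set.indicator_of_notMem (show p ∉ {p | Rel P0 p q} from fun h => hex ⟨p, h⟩) _
    simp only [h0, tsum_zero]
    exact zero_le

/-- One bad prime is paid by its children. -/
theorem pay (s η δ : ℝ) (hs0 : 0 ≤ s) (hs1 : s < 1) (P0 : ℕ) (S : Set ℕ) (p : ℕ)
    (hp : p ∈ bad η δ P0 S) : ENNReal.ofReal ((p : ℝ) ^ (-s)) ≤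
      ∑' q : ℕ, (ENNReal.ofReal (3 * (p : ℝ) ^ (-((1 - η) * (1 - s) - δ))) *
        ({q | Rel P0 p q} ∩ S).indicator (fun q : ℕ => ENNReal.ofReal ((q : ℝ) ^ (-s))) q) := by
  classical
  obtain ⟨hpp, hP, K, hK1, hK2, hK3⟩ := hp
  have hp1 : (1 : ℝ) ≤ p := by exact_mod_cast hpp.one_le
  have hp0 : (0 : ℝ) < p := by linarith
  have hK0 : 0 < K := lt_of_lt_of_le (by positivity) hK1
  set A := kids S p K with hA
  have hAm : ∀ k ∈ A, 1 ≤ k ∧ (k : ℝ) ≤ K ∧ 2 * k * p + 1 ∈ S := by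
    intro k hk
    rw [hA, kids, Finset.mem_filter, Finset.mem_Icc] at hk
    exact ⟨hk.1.1, (Nat.le_floor_iff hK0.le).1 hk.1.2, hk.2.2⟩
  have hA1 : 1 ≤ K := by
    -- there is an element
    have h1 : 0 < (A.card : ℝ) := lt_of_le_of_lt (by positivity) hK3
    have h2 : 0 < A.card := by exact_mod_cast h1
    obtain ⟨k, hk⟩ := Finset.card_pos.1 h2
    obtain ⟨h3, h4, -⟩ := hAm k hk
    exact le_trans (by exact_mod_cast h3) h4
  set g : ℕ → ℝ≥0∞ := ({q | Rel P0 p q} ∩ S).indicator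
    (fun q : ℕ => ENNReal.ofReal ((q : ℝ) ^ (-s))) with hg
  rw [ENNReal.tsum_mul_left]
  have hinj : ∀ x ∈ A, ∀ y ∈ A, 2 * x * p + 1 = 2 * y * p + 1 → x = y := by
    intro x _ y _ hxy
    have h1 : x * p = y * p := by nlinarith
    exact Nat.eq_of_mul_eq_mul_right hpp.pos h1
  have h1 : ∑ k ∈ A, ENNReal.ofReal ((3 * K * p) ^ (-s)) ≤ ∑' q, g q := by
    calc ∑ k ∈ A, ENNReal.ofReal ((3 * K * p) ^ (-s)) ≤ ∑ k ∈ A, g (2 * k * p + 1) := by
          refine Finset.sum_le_sum fun k hk => ?_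
          obtain ⟨h2, h3, h4⟩ := hAm k hk
          have h2' : (1 : ℝ) ≤ k := by exact_mod_cast h2
          have hkp : 1 ≤ (k : ℝ) * p := one_le_mul_of_one_le_of_one_le h2' hp1
          have hcast : ((2 * k * p + 1 : ℕ) : ℝ) = 2 * k * p + 1 := by push_cast; ring
          have hle : ((2 * k * p + 1 : ℕ) : ℝ) ≤ 3 * K * p := by
            rw [hcast]
            have : (k : ℝ) * p ≤ K * p := by gcongr
            nlinarith
          have hmem : 2 * k * p + 1 ∈ {q | Rel P0 p q} ∩ S := by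
            refine ⟨⟨hpp, hP, ?_, ?_, ?_⟩, h4⟩
            · rw [Nat.add_sub_cancel]
              exact Dvd.intro_left _ rfl
            · have : 0 < 2 * k * p := Nat.mul_pos (Nat.mul_pos two_pos h2) hpp.pos
              omega
            · rw [hcast]
              have : (k : ℝ) * p ≤ K * p := by gcongr
              nlinarith
          rw [hg, Set.indicator_of_mem hmem]
          refine ENNReal.ofReal_le_ofReal ?_
          have hpos : (0 : ℝ) < ((2 * k * p + 1 : ℕ) : ℝ) := by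
            rw [hcast]
            nlinarith
          exact Real.rpow_le_rpow_of_nonpos hpos hle (by linarith)
      _ = ∑ q ∈ A.image (fun k => 2 * k * p + 1), g q := by
          rw [Finset.sum_image hinj]
      _ ≤ ∑' q, g q := ENNReal.sum_le_tsum _
  refine le_trans ?_ (mul_le_mul_right h1 _)
  rw [Finset.sum_const, nsmul_eq_mul, ← ENNReal.ofReal_natCast, ← ENNReal.ofReal_mul (by positivity),
    ← ENNReal.ofReal_mul (by positivity)]
  refine ENNReal.ofReal_le_ofReal ?_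
  have h2 : (3 * K * (p : ℝ)) ^ (-s) = 3 ^ (-s) * K ^ (-s) * (p : ℝ) ^ (-s) := by
    rw [Real.mul_rpow (by positivity) hp0.le, Real.mul_rpow (by norm_num) hK0.le]
  have h3 : (1 : ℝ) ≤ 3 * 3 ^ (-s) := by
    have : (3 : ℝ) ^ (-(1 : ℝ)) ≤ 3 ^ (-s) :=
      Real.rpow_le_rpow_of_exponent_le (by norm_num) (by linarith)
    rw [Real.rpow_neg_one] at this
    linarith
  have h4 : 1 ≤ K ^ (1 - s) * (p : ℝ) ^ (-((1 - η) * (1 - s))) := by
    have h5 : ((p : ℝ) ^ (1 - η)) ^ (1 - s) ≤ K ^ (1 - s) :=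
      Real.rpow_le_rpow (by positivity) hK1 (by linarith)
    rw [← Real.rpow_mul hp0.le] at h5
    calc (1 : ℝ) = (p : ℝ) ^ ((1 - η) * (1 - s)) * (p : ℝ) ^ (-((1 - η) * (1 - s))) := by
          rw [← Real.rpow_add hp0]
          simp
      _ ≤ _ := by gcongr
  have h5 : (p : ℝ) ^ (-((1 - η) * (1 - s) - δ)) * (p : ℝ) ^ (-δ) =
      (p : ℝ) ^ (-((1 - η) * (1 - s))) := by
    rw [← Real.rpow_add hp0]
    congr 1
    ring
  have h6 : K * K ^ (-s) = K ^ (1 - s) := by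
    rw [sub_eq_add_neg, Real.rpow_add hK0, Real.rpow_one]
  calc (p : ℝ) ^ (-s) = 1 * 1 * (p : ℝ) ^ (-s) := by ring
    _ ≤ (3 * 3 ^ (-s)) * (K ^ (1 - s) * (p : ℝ) ^ (-((1 - η) * (1 - s)))) * (p : ℝ) ^ (-s) := by
        gcongr
    _ = 3 * (p : ℝ) ^ (-((1 - η) * (1 - s) - δ)) * ((K * (p : ℝ) ^ (-δ)) *
          (3 ^ (-s) * K ^ (-s) * (p : ℝ) ^ (-s))) := by
        rw [← h5, ← h6]
        ring
    _ ≤ 3 * (p : ℝ) ^ (-((1 - η) * (1 - s) - δ)) * ((A.card : ℝ) *
          (3 ^ (-s) * K ^ (-s) * (p : ℝ) ^ (-s))) := by gcongr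
    _ = _ := by rw [h2]

/-- The contraction. -/
theorem step (s η δ : ℝ) (hs0 : 0 ≤ s) (hs1 : s < 1) (hβ : δ < (1 - η) * (1 - s)) :
    ∃ P0 : ℕ, 1 ≤ P0 ∧ ∀ S : Set ℕ, ms s (bad η δ P0 S) ≤ 2⁻¹ * ms s S := by
  classical
  obtain ⟨P0, hP0, hpar⟩ := parents ((1 - η) * (1 - s) - δ) (by linarith)
  refine ⟨P0, hP0, fun S => ?_⟩
  set w : ℕ → ℝ≥0∞ := fun p => ENNReal.ofReal (3 * (p : ℝ) ^ (-((1 - η) * (1 - s) - δ))) with hw
  set f : ℕ → ℝ≥0∞ := fun q => ENNReal.ofReal ((q : ℝ) ^ (-s)) with hf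
  have h1 : ∀ p q : ℕ, w p * ({q | Rel P0 p q} ∩ S).indicator f q =
      S.indicator f q * {p | Rel P0 p q}.indicator w p := by
    intro p q
    by_cases hR : Rel P0 p q
    · by_cases hS : q ∈ S
      · rw [Set.indicator_of_mem (show q ∈ {q | Rel P0 p q} ∩ S from ⟨hR, hS⟩),
          Set.indicator_of_mem hS, Set.indicator_of_mem (show p ∈ {p | Rel P0 p q} from hR), mul_comm]
      · rw [Set.indicator_of_notMem (show q ∉ {q | Rel P0 p q} ∩ S from fun h => hS h.2),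
          Set.indicator_of_notMem hS, mul_zero, zero_mul]
    · rw [Set.indicator_of_notMem (show q ∉ {q | Rel P0 p q} ∩ S from fun h => hR h.1),
        Set.indicator_of_notMem (show p ∉ {p | Rel P0 p q} from hR), mul_zero, mul_zero]
  calc ms s (bad η δ P0 S) ≤ ∑' p : ℕ, ∑' q : ℕ, w p * ({q | Rel P0 p q} ∩ S).indicator f q := by
        unfold ms
        refine ENNReal.tsum_le_tsum fun p => ?_
        by_cases hp : p ∈ bad η δ P0 S
        · rw [Set.indicator_of_mem hp]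
          exact pay s η δ hs0 hs1 P0 S p hp
        · rw [Set.indicator_of_notMem hp]
          exact zero_le
    _ = ∑' q : ℕ, ∑' p : ℕ, w p * ({q | Rel P0 p q} ∩ S).indicator f q := ENNReal.tsum_comm
    _ = ∑' q : ℕ, S.indicator f q * ∑' p : ℕ, {p | Rel P0 p q}.indicator w p := by
        refine tsum_congr fun q => ?_
        rw [← ENNReal.tsum_mul_left]
        exact tsum_congr fun p => h1 p q
    _ ≤ ∑' q : ℕ, S.indicator f q * 2⁻¹ := ENNReal.tsum_le_tsum fun q => by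
        gcongr
        exact hpar q
    _ = 2⁻¹ * ms s S := by
        rw [ENNReal.tsum_mul_right, mul_comm]
        rfl

end Pool.Agent.PFo
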