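import Mathlib

/-!
Weighted size of a set of natural numbers: `∑_{n ∈ S} n^(-s)`.
-/

namespace Pool.Agent.PFo

open Finset Filter
open scoped ENNReal Topology

/-- The sum of `n^(-s)` over the set `S`. -/
noncomputable def ms (s : ℝ) (S : Set ℕ) : ℝ≥0∞ :=
  ∑' n : ℕ, S.indicator (fun n : ℕ => ENNReal.ofReal ((n : ℝ) ^ (-s))) n

theorem ms_mono (s : ℝ) {S T : Set ℕ} (h : S ⊆ T) : ms s S ≤ ms s T :=
  ENNReal.tsum_le_tsum fun n => Set.indicator_le_indicator_of_subset h (fun _ => zero_le) n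

theorem ms_union_le (s : ℝ) (S T : Set ℕ) : ms s (S ∪ T) ≤ ms s S + ms s T := by
  unfold ms
  rw [← ENNReal.tsum_add]
  refine ENNReal.tsum_le_tsum fun n => ?_
  by_cases h1 : n ∈ S
  · rw [Set.indicator_of_mem (Set.mem_union_left T h1), Set.indicator_of_mem h1]
    exact le_self_add
  · by_cases h2 : n ∈ T
    · rw [Set.indicator_of_mem (Set.mem_union_right S h2), Set.indicator_of_mem h2]
      exact le_add_self
    · rw [Set.indicator_of_notMem (by
        rintro (h | h)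
        exacts [h1 h, h2 h])]
      exact zero_le

theorem ms_finite (s : ℝ) {S : Set ℕ} (h : S.Finite) : ms s S ≠ ⊤ := by
  classical
  unfold ms
  rw [tsum_eq_sum (s := h.toFinset) (fun n hn => by
    rw [Set.indicator_of_notMem]
    simpa using hn)]
  refine (ENNReal.sum_lt_top.2 fun n _ => ?_).ne
  by_cases h1 : n ∈ S
  · rw [Set.indicator_of_mem h1]
    exact ENNReal.ofReal_lt_top
  · rw [Set.indicator_of_notMem h1]
    exact ENNReal.zero_lt_top

/-- The limit of an increasing sequence of sets. -/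
theorem ms_iUnion_le (s : ℝ) (B : ℕ → Set ℕ) (hB : Monotone B) (M : ℝ≥0∞)
    (h : ∀ j, ms s (B j) ≤ M) : ms s (⋃ j, B j) ≤ M := by
  classical
  unfold ms
  rw [ENNReal.tsum_eq_iSup_sum]
  refine iSup_le fun F => ?_
  have hex : ∃ j, ∀ n ∈ F, n ∈ (⋃ j, B j) → n ∈ B j := by
    induction F using Finset.induction_on with
    | empty => exact ⟨0, fun n hn => absurd hn (Finset.notMem_empty n)⟩
    | insert a F _ ih =>
      obtain ⟨j, hj⟩ := ih
      by_cases ha : a ∈ ⋃ j, B j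
      · obtain ⟨i, hi⟩ := Set.mem_iUnion.1 ha
        refine ⟨max i j, fun n hn hnU => ?_⟩
        rcases Finset.mem_insert.1 hn with rfl | hn'
        · exact hB (le_max_left i j) hi
        · exact hB (le_max_right i j) (hj n hn' hnU)
      · refine ⟨j, fun n hn hnU => ?_⟩
        rcases Finset.mem_insert.1 hn with rfl | hn'
        · exact absurd hnU ha
        · exact hj n hn' hnU
  obtain ⟨j, hj⟩ := hex
  refine le_trans ?_ (h j)
  unfold ms
  refine le_trans (Finset.sum_le_sum fun n hn => ?_) (ENNReal.sum_le_tsum F)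
  by_cases h1 : n ∈ ⋃ j, B j
  · rw [Set.indicator_of_mem h1, Set.indicator_of_mem (hj n hn h1)]
  · rw [Set.indicator_of_notMem h1]
    exact zero_le

/-- The counting function from the weighted size. -/
theorem card_le_of_ms (s : ℝ) (hs : 0 ≤ s) (S : Set ℕ) (X : ℝ) (F : Finset ℕ)
    (hF : ∀ n ∈ F, n ∈ S ∧ 1 ≤ n ∧ (n : ℝ) ≤ X) :
    ENNReal.ofReal (F.card : ℝ) ≤ ENNReal.ofReal (X ^ s) * ms s S := by
  unfold ms
  rw [← ENNReal.tsum_mul_left]
  refine le_trans ?_ (ENNReal.sum_le_tsum F)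
  have h1 : ENNReal.ofReal (F.card : ℝ) = ∑ n ∈ F, (1 : ℝ≥0∞) := by
    rw [Finset.sum_const, nsmul_eq_mul, mul_one, ENNReal.ofReal_natCast]
  rw [h1]
  refine Finset.sum_le_sum fun n hn => ?_
  obtain ⟨h2, h3, h4⟩ := hF n hn
  rw [Set.indicator_of_mem h2, ← ENNReal.ofReal_mul (by
    have : (0 : ℝ) ≤ X := le_trans (Nat.cast_nonneg n) h4
    positivity)]
  rw [← ENNReal.ofReal_one]
  refine ENNReal.ofReal_le_ofReal ?_
  have hn0 : (0 : ℝ) < n := by exact_mod_cast h3
  rw [Real.rpow_neg hn0.le, ← div_eq_mul_inv, one_le_div (by positivity)]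
  exact Real.rpow_le_rpow hn0.le h4 hs

/-- Finite weighted size from the counting function. -/
theorem ms_of_count (s δ C : ℝ) (hs : 0 ≤ s) (hδ : 1 - δ < s) (hC : 0 ≤ C) (S : Set ℕ)
    (h : ∀ X : ℝ, 2 ≤ X → ∃ B : Finset ℕ, (B.card : ℝ) ≤ C * X ^ (1 - δ) ∧
      ∀ n ∈ S, (n : ℝ) ≤ X → n ∈ B) : ms s S ≠ ⊤ := by
  classical
  set r : ℝ := 2 ^ (1 - δ - s) with hr
  have hr0 : 0 < r := by positivity
  have hr1 : r < 1 := Real.rpow_lt_one_of_one_lt_of_neg one_lt_two (by linarith)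
  set f : ℕ → ℝ := fun n => S.indicator (fun n : ℕ => (n : ℝ) ^ (-s)) n with hf
  have hf0 : ∀ n, 0 ≤ f n := fun n =>
    Set.indicator_nonneg (fun n _ => Real.rpow_nonneg (Nat.cast_nonneg n) _) n
  have hms : ms s S = ∑' n, ENNReal.ofReal (f n) := by
    unfold ms
    refine tsum_congr fun n => ?_
    rw [hf]
    by_cases h1 : n ∈ S
    · simp [Set.indicator_of_mem h1]
    · simp [Set.indicator_of_notMem h1]
  -- dyadic blocks
  have hblock : ∀ J : ℕ, ∑ n ∈ Finset.Ico (2 ^ J) (2 ^ (J + 1)), f n ≤ C * 2 ^ (1 - δ) * r ^ J := by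
    intro J
    obtain ⟨B, hB1, hB2⟩ := h (2 ^ (J + 1)) (by
      calc (2 : ℝ) = 2 ^ 1 := (pow_one 2).symm
        _ ≤ 2 ^ (J + 1) := pow_le_pow_right₀ one_le_two (by omega))
    have h1 : ∀ n ∈ Finset.Ico (2 ^ J) (2 ^ (J + 1)), f n ≤
        if n ∈ B then ((2 : ℝ) ^ J) ^ (-s) else 0 := by
      intro n hn
      obtain ⟨hn1, hn2⟩ := Finset.mem_Ico.1 hn
      have hn1' : (2 : ℝ) ^ J ≤ n := by exact_mod_cast hn1
      by_cases hS : n ∈ S
      · have hnB : n ∈ B := hB2 n hS (by exact_mod_cast hn2.le)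
        rw [if_pos hnB, hf]
        simp only [Set.indicator_of_mem hS]
        exact Real.rpow_le_rpow_of_nonpos (by positivity) hn1' (by linarith)
      · rw [hf]
        simp only [Set.indicator_of_notMem hS]
        split_ifs <;> positivity
    refine (Finset.sum_le_sum h1).trans ?_
    rw [← Finset.sum_filter, Finset.sum_const, nsmul_eq_mul]
    have h2 : (((Finset.Ico (2 ^ J) (2 ^ (J + 1))).filter (· ∈ B)).card : ℝ) ≤ B.card := by
      exact_mod_cast Finset.card_le_card fun n hn => (Finset.mem_filter.1 hn).2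
    have h3 : ((2 : ℝ) ^ (J + 1)) ^ (1 - δ) * ((2 : ℝ) ^ J) ^ (-s) = 2 ^ (1 - δ) * r ^ J := by
      rw [hr, ← Real.rpow_natCast 2 (J + 1), ← Real.rpow_natCast 2 J, ← Real.rpow_mul (by norm_num),
        ← Real.rpow_mul (by norm_num), ← Real.rpow_add (by norm_num), ← Real.rpow_natCast,
        ← Real.rpow_mul (by norm_num), ← Real.rpow_add (by norm_num)]
      congr 1
      push_cast
      ring
    calc _ ≤ (C * ((2 : ℝ) ^ (J + 1)) ^ (1 - δ)) * ((2 : ℝ) ^ J) ^ (-s) := by
          gcongr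
          exact h2.trans hB1
      _ = C * (((2 : ℝ) ^ (J + 1)) ^ (1 - δ) * ((2 : ℝ) ^ J) ^ (-s)) := by ring
      _ = _ := by rw [h3]; ring
  have hsum : ∀ J : ℕ, ∑ n ∈ Finset.range (2 ^ J), f n ≤
      f 0 + C * 2 ^ (1 - δ) * ∑ j ∈ Finset.range J, r ^ j := by
    intro J
    induction J with
    | zero => simp
    | succ J ih =>
      rw [Finset.sum_range_succ, ← Finset.sum_range_add_sum_Ico f
        (Nat.pow_le_pow_right (by norm_num) (Nat.le_succ J))]
      have := hblock J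
      rw [mul_add]
      linarith
  have hgeo : ∀ J : ℕ, ∑ j ∈ Finset.range J, r ^ j ≤ (1 - r)⁻¹ := fun J =>
    (Summable.sum_le_tsum _ (fun j _ => by positivity)
      (summable_geometric_of_lt_one hr0.le hr1)).trans (tsum_geometric_of_lt_one hr0.le hr1).le
  have hle : ∀ N : ℕ, ∑ n ∈ Finset.range N, f n ≤ f 0 + C * 2 ^ (1 - δ) * (1 - r)⁻¹ := by
    intro N
    have h1 : ∑ n ∈ Finset.range N, f n ≤ ∑ n ∈ Finset.range (2 ^ N), f n :=
      Finset.sum_le_sum_of_subset_of_nonneg (Finset.range_subset_range.2 Nat.lt_two_pow_self.le)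
        fun n _ _ => hf0 n
    refine h1.trans ((hsum N).trans ?_)
    have := hgeo N
    gcongr
  have hsm : Summable f := summable_of_sum_range_le hf0 hle
  rw [hms]
  exact hsm.tsum_ofReal_ne_top

end Pool.Agent.PFo
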